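import Pool.Agent.Results.MP_95030e_al.FinitePermutations

/-! Rational and integral matrices over a group: a copy of lemmas of FiniteGroups. -/

set_option autoImplicit false

open Filter Topology

noncomputable section

namespace Pool.Agent.H13.GN.FiniteGroups

open Pool.Agent Pool.Agent.H13.SF Pool.Agent.Results.MP_95030e_al

/-- The kernel of right multiplication by the matrix `A` on `ℓ²(G)^m`. -/
def kernel {G : Type} [Group G] {m n : ℕ} (A : Matrix (Fin m) (Fin n) (G →₀ ℂ)) :
    Set (lp (fun _ : Fin m × G => ℂ) 2) :=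
  {x | ∀ (j : Fin n) (g : G),
    ∑ i : Fin m, (A i j).sum (fun h c => x (i, g * h⁻¹) * c) = 0}

open Classical in
/-- The von Neumann dimension of this kernel: the sum over `i` of one minus the squared distance
from the basis vector at `(i, 1)` to the kernel, that is, the trace of the projection onto the
kernel. -/
def kerDim {G : Type} [Group G] {m n : ℕ} (A : Matrix (Fin m) (Fin n) (G →₀ ℂ)) : ℝ :=
  ∑ i : Fin m, (1 - (Metric.infDist
    (lp.single 2 (i, (1 : G)) (1 : ℂ) : lp (fun _ : Fin m × G => ℂ) 2) (kernel A)) ^ 2)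

/-- A rational matrix as a complex matrix. -/
def complex {G : Type} {m n : ℕ} (A : Matrix (Fin m) (Fin n) (G →₀ ℚ)) :
    Matrix (Fin m) (Fin n) (G →₀ ℂ) :=
  fun i j => (A i j).mapRange (fun q : ℚ => (q : ℂ)) Rat.cast_zero

/-- clearing denominators -/
theorem clear {G : Type} [Group G] {m n : ℕ} (A : Matrix (Fin m) (Fin n) (G →₀ ℚ)) :
    ∃ B : Matrix (Fin m) (Fin n) (G →₀ ℂ), (∀ i j g, B i j g ∈ AmenableAllOrNothing.ZZ) ∧
      kerDim (complex A) = kerDim B := by
  classical
  set N : ℕ := ∏ i, ∏ j, ∏ g ∈ (A i j).support, (A i j g).den with hN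
  have hN0 : N ≠ 0 := by
    rw [hN]
    refine Finset.prod_ne_zero_iff.2 fun i _ => Finset.prod_ne_zero_iff.2 fun j _ =>
      Finset.prod_ne_zero_iff.2 fun g _ => (A i j g).den_nz
  have hdvd : ∀ i j, ∀ g ∈ (A i j).support, (A i j g).den ∣ N := by
    intro i j g hg
    refine dvd_trans ?_ (Finset.dvd_prod_of_mem _ (Finset.mem_univ i))
    refine dvd_trans ?_ (Finset.dvd_prod_of_mem _ (Finset.mem_univ j))
    exact Finset.dvd_prod_of_mem (fun g => (A i j g).den) hg
  have hint : ∀ i j g, ∃ z : ℤ, (N : ℚ) * A i j g = z := by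
    intro i j g
    by_cases hg : g ∈ (A i j).support
    · obtain ⟨c, hc⟩ := hdvd i j g hg
      refine ⟨c * (A i j g).num, ?_⟩
      rw [hc]
      push_cast
      have h1 := Rat.den_mul_eq_num (A i j g)
      rw [mul_comm ((A i j g).den : ℚ) c, mul_assoc, h1]
    · refine ⟨0, ?_⟩
      rw [Finsupp.notMem_support_iff.1 hg]
      simp
  refine ⟨fun i j => (N : ℂ) • complex A i j, ?_, ?_⟩
  · intro i j g
    obtain ⟨z, hz⟩ := hint i j g
    rw [AmenableAllOrNothing.mem_ZZ]
    refine ⟨z, ?_⟩
    show (N : ℂ) * ((A i j g : ℚ) : ℂ) = z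
    have : (((N : ℚ) * A i j g : ℚ) : ℂ) = ((z : ℚ) : ℂ) := by rw [hz]
    push_cast at this
    exact this
  · have hk : kernel (fun i j => (N : ℂ) • complex A i j) = kernel (complex A) := by
      ext x
      have e : ∀ (j : Fin n) (g : G), ∑ i : Fin m, (((N : ℂ) • complex A i j)).sum
          (fun h c => x (i, g * h⁻¹) * c) =
          (N : ℂ) * ∑ i : Fin m, (complex A i j).sum (fun h c => x (i, g * h⁻¹) * c) := by
        intro j g
        rw [Finset.mul_sum]
        refine Finset.sum_congr rfl fun i _ => ?_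
        rw [Finsupp.sum_smul_index (by intro h; rw [mul_zero]), Finsupp.sum, Finsupp.sum,
          Finset.mul_sum]
        refine Finset.sum_congr rfl fun h _ => ?_
        ring
      constructor
      · intro hx j g
        have h1 := hx j g
        rw [e] at h1
        exact (mul_eq_zero.1 h1).resolve_left (by exact_mod_cast hN0)
      · intro hx j g
        rw [e, hx j g, mul_zero]
    unfold kerDim
    rw [hk]

theorem val_rat {G : Type} [Group G] {m n : ℕ} (A : Matrix (Fin m) (Fin n) (G →₀ ℚ)) :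
    W656.VA.Val AmenableAllOrNothing.ZZ G (kerDim (complex A)) := by
  obtain ⟨B, hB, h⟩ := clear A
  rw [h]
  exact W656.VA.val_kerDim B hB

/-- integer coefficients of complex matrices -/
theorem exists_int {E : Type} [Group E] {r : ℝ}
    (h : W656.VA.Val AmenableAllOrNothing.ZZ E r) :
    ∃ (m n : ℕ) (D : Matrix (Fin m) (Fin n) (E →₀ ℤ)), W656.VA.kerDim (cpl D) = r := by
  obtain ⟨m, n, B, hB, hBr⟩ := W656.VA.exists_kerDim h
  have hB' : ∀ i j g, ∃ z : ℤ, (z : ℂ) = B i j g := by
    intro i j g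
    obtain ⟨z, hz⟩ := (AmenableAllOrNothing.mem_ZZ _).1 (hB i j g)
    exact ⟨z, hz.symm⟩
  choose c hc using hB'
  have hc0 : ∀ i j g, c i j g ≠ 0 → g ∈ (B i j).support := by
    intro i j g hg
    rw [Finsupp.mem_support_iff, ← hc]
    exact_mod_cast hg
  refine ⟨m, n, fun i j => Finsupp.onFinset (B i j).support (c i j) (hc0 i j), ?_⟩
  have h2 : cpl (fun i j => Finsupp.onFinset (B i j).support (c i j) (hc0 i j)) = B := by
    funext i j
    ext g
    show (((c i j g : ℤ)) : ℂ) = B i j g
    exact hc i j g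
  rw [h2, hBr]

/-- integer matrices as rational matrices -/
theorem complex_int {G : Type} {m n : ℕ} (D : Matrix (Fin m) (Fin n) (G →₀ ℤ)) :
    complex (fun i j => (D i j).mapRange (fun z : ℤ => (z : ℚ)) Int.cast_zero) = cpl D := by
  funext i j
  ext g
  show (((D i j g : ℤ) : ℚ) : ℂ) = ((D i j g : ℤ) : ℂ)
  push_cast
  rfl

end Pool.Agent.H13.GN.FiniteGroups
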