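import Pool.Agent.H13.SF.Luck

/-!
The kernel dimension of the image of a fixed matrix is an upper semicontinuous function of the
quotient.
-/

set_option autoImplicit false
set_option linter.unusedSectionVars false

open Filter Topology

noncomputable section

namespace Pool.Agent.H13.GN

open Pool.Agent.H13.SF
open Pool.Agent.V11111.MD
open Pool.Agent.H919R3.L2 (EE dl)

section
variable {Γ Q : Type} [Group Γ] [Group Q] {m n : ℕ} (π : Γ →* Q)
  (B : Matrix (Fin m) (Fin n) (Γ →₀ ℤ))

theorem rw_push (q : Fin n) :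
    rw' (push π B) q = (rw' B q).mapDomain (fun p : Γ × Fin m => (π p.1, p.2)) := by
  unfold rw' push
  rw [Finsupp.mapDomain_finsetSum]
  refine Finset.sum_congr rfl fun l _ => ?_
  rw [← Finsupp.mapDomain_comp, ← Finsupp.mapDomain_comp]
  congr 1
  funext h
  simp

variable [DecidableEq Γ] [DecidableEq Q]

theorem mem_gset (q : Fin n) (p : Γ × Fin m) (hp : p ∈ (rw' B q).support) : p.1 ∈ gset B := by
  unfold gset
  rw [Finset.mem_biUnion]
  exact ⟨q, Finset.mem_univ _, Finset.mem_image_of_mem _ hp⟩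

theorem coef (q : Fin n) (y : Q) (l : Fin m) :
    rw' (push π B) q (y, l) = ∑ g ∈ gset B with π g = y, rw' B q (g, l) := by
  rw [rw_push, Finsupp.mapDomain, Finsupp.sum_apply, Finset.sum_filter,
    Finsupp.sum_of_support_subset (s := gset B ×ˢ (Finset.univ : Finset (Fin m)))]
  · rw [Finset.sum_product]
    refine Finset.sum_congr rfl fun g _ => ?_
    rw [Finset.sum_eq_single l]
    · rw [Finsupp.single_apply]
      simp only [Prod.mk.injEq, and_true]
    · intro b _ hb
      rw [Finsupp.single_apply, if_neg]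
      intro h
      exact hb (Prod.mk.inj h).2
    · intro h
      exact absurd (Finset.mem_univ _) h
  · intro p hp
    exact Finset.mem_product.2 ⟨mem_gset B q p hp, Finset.mem_univ _⟩
  · intro p _
    simp

theorem supp_push (q : Fin n) (p : Q × Fin m) (hp : p ∈ (rw' (push π B) q).support) :
    p.1 ∈ (gset B).image π := by
  by_contra hcon
  rw [Finsupp.mem_support_iff] at hp
  apply hp
  obtain ⟨y, l⟩ := p
  rw [coef]
  apply Finset.sum_eq_zero
  intro g hg
  rw [Finset.mem_filter] at hg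
  exact absurd (Finset.mem_image.2 ⟨g, hg.1, hg.2⟩) hcon

/-- the permutations of the quotient -/
def tq (g : Γ) : Equiv.Perm Q := Equiv.mulRight (π g)

theorem Nf_eq : Nf (gset B) (fun q g l => rw' B q (g, l)) (tq π) =
    Nf ((gset B).image π) (fun q g l => rw' (push π B) q (g, l)) (mR Q) := by
  unfold Nf
  congr 1
  funext p
  rw [← Finset.sum_fiberwise_of_maps_to (t := (gset B).image π) (g := π)
    (fun g hg => Finset.mem_image_of_mem _ hg)]
  refine Finset.sum_congr rfl fun y _ => ?_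
  rw [Finset.sum_comm]
  refine Finset.sum_congr rfl fun q _ => ?_
  beta_reduce
  rw [coef]
  push_cast
  rw [Finsupp.single_finsetSum]
  refine Finset.sum_congr rfl fun g hg => ?_
  rw [Finset.mem_filter] at hg
  rw [← hg.2]
  rfl

theorem Nt_eq : Nt (gset B) (fun q g l => rw' B q (g, l)) (tq π) =
    Nt ((gset B).image π) (fun q g l => rw' (push π B) q (g, l)) (mR Q) := by
  unfold Nt
  congr 1
  funext p
  rw [← Finset.sum_fiberwise_of_maps_to (t := (gset B).image π) (g := π)
    (fun g hg => Finset.mem_image_of_mem _ hg)]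
  refine Finset.sum_congr rfl fun y _ => ?_
  rw [Finset.sum_comm]
  refine Finset.sum_congr rfl fun l _ => ?_
  beta_reduce
  rw [coef]
  push_cast
  rw [Finsupp.single_finsetSum]
  refine Finset.sum_congr rfl fun g hg => ?_
  rw [Finset.mem_filter] at hg
  rw [← hg.2]
  rfl

theorem compat (W : Finset Γ) : Compat (gset B) (tq π) W π := by
  intro u _ g _
  constructor
  · unfold tq
    simp
  · unfold tq
    rw [map_mul, map_inv, eq_comm, Equiv.Perm.inv_eq_iff_eq]
    simp

/-- the vector over the group -/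
def vec (t : ℝ) (k : ℕ) (l : Fin m) : Γ × Fin m →₀ ℝ :=
  (Qf (gset B) (fun q g l => rw' B q (g, l)) (mR Γ) t ^ k) (Finsupp.single (1, l) 1)

theorem norm_eq (t : ℝ) (k : ℕ) (l : Fin m) :
    ‖(QQ (ContinuousLinearMap.adjoint (Op (HM (rw' (push π B))))) t ^ k)
      (dl ((1 : Q), l))‖ ^ 2 = ssq (tp π (Fin m) (vec B t k l)) := by
  have h1 : (dl ((1 : Q), l) : EE Q (Fin m)) = emb Q (Fin m) (Finsupp.single (1, l) 1) := by
    rw [emb_single, Complex.ofReal_one, one_smul]
  rw [h1, Qf_emb ((gset B).image π) (fun q g l => rw' (push π B) q (g, l)) (rw' (push π B))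
    (fun _ _ _ => rfl) (fun q p hp => supp_push π B q p hp), norm_emb, vec,
    Qf_pow_tp (gset B) (fun q g l => rw' B q (g, l)) t (tq π) π k (compat π B _), map_one]
  have h2 : Qf ((gset B).image π) (fun q g l => rw' (push π B) q (g, l)) (mR Q) t =
      Qf (gset B) (fun q g l => rw' B q (g, l)) (tq π) t := by
    unfold Qf
    rw [Nf_eq, Nt_eq]
  rw [h2]

theorem ssq_map {Z Z' : Type} [DecidableEq Z'] (φ : Z → Z') (f : Z →₀ ℝ) :
    ssq (f.mapDomain φ) = ∑ p ∈ f.support, ∑ p' ∈ f.support,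
      if φ p' = φ p then f p * f p' else 0 := by
  have h1 : ssq (f.mapDomain φ) = (f.mapDomain φ).sum fun z v => v * (f.mapDomain φ) z := by
    unfold ssq Finsupp.sum
    refine Finset.sum_congr rfl fun z _ => ?_
    ring
  rw [h1, Finsupp.sum_mapDomain_index (by intro b; ring) (by intro b v w; ring)]
  unfold Finsupp.sum
  refine Finset.sum_congr rfl fun p _ => ?_
  beta_reduce
  rw [Finsupp.mapDomain, Finsupp.sum_apply, Finsupp.sum, Finset.mul_sum]
  refine Finset.sum_congr rfl fun p' _ => ?_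
  rw [Finsupp.single_apply]
  split_ifs <;> simp

end

/-- The values for two quotients which satisfy the same relations from a finite set are equal. -/
theorem ssq_loc {Γ : Type} [Group Γ] {L : Type} (f : Γ × L →₀ ℝ) :
    ∃ S : Finset Γ, ∀ {Q Q' : Type} [Group Q] [Group Q'] (π : Γ →* Q) (π' : Γ →* Q'),
      (∀ s ∈ S, π s = 1 ↔ π' s = 1) → ssq (tp π L f) = ssq (tp π' L f) := by
  classical
  refine ⟨(f.support ×ˢ f.support).image fun p => p.1.1⁻¹ * p.2.1, ?_⟩
  intro Q Q' _ _ π π' h
  unfold tp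
  rw [Finsupp.lmapDomain_apply, Finsupp.lmapDomain_apply, ssq_map, ssq_map]
  refine Finset.sum_congr rfl fun p hp => Finset.sum_congr rfl fun p' hp' => ?_
  have h1 := h (p.1⁻¹ * p'.1) (Finset.mem_image.2 ⟨(p, p'), Finset.mem_product.2 ⟨hp, hp'⟩, rfl⟩)
  have h2 : (π p'.1 = π p.1) ↔ (π' p'.1 = π' p.1) := by
    rw [map_mul, map_mul, map_inv, map_inv, inv_mul_eq_one, inv_mul_eq_one] at h1
    constructor
    · intro h3
      exact (h1.1 h3.symm).symm
    · intro h3
      exact (h1.2 h3.symm).symm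
  simp only [Prod.mk.injEq, h2]

/-- **Upper semicontinuity.** -/
theorem usc {Γ Q : Type} [Group Γ] [Group Q] {m n : ℕ} (π : Γ →* Q)
    (B : Matrix (Fin m) (Fin n) (Γ →₀ ℤ)) (r : ℝ)
    (hr : Pool.Agent.W656.VA.kerDim (cpl (push π B)) < r) :
    ∃ S : Finset Γ, ∀ {Q' : Type} [Group Q'] (π' : Γ →* Q'),
      (∀ s ∈ S, π s = 1 ↔ π' s = 1) → Pool.Agent.W656.VA.kerDim (cpl (push π' B)) < r := by
  classical
  rw [← nu_eq] at hr
  have hlim := beta_lim ((gset B).image π) (fun q g l => rw' (push π B) q (g, l))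
    (rw' (push π B)) (fun _ _ _ => rfl) (fun q p hp => supp_push π B q p hp)
  obtain ⟨k, hk⟩ := (hlim.eventually (gt_mem_nhds hr)).exists
  set t : ℝ := (Cb ((gset B).image π) (fun q g l => rw' (push π B) q (g, l)))⁻¹ with ht
  have h1 : ∀ l : Fin m, ∃ S : Finset Γ, ∀ {Q Q' : Type} [Group Q] [Group Q'] (π : Γ →* Q)
      (π' : Γ →* Q'), (∀ s ∈ S, π s = 1 ↔ π' s = 1) →
      ssq (tp π (Fin m) (vec B t k l)) = ssq (tp π' (Fin m) (vec B t k l)) :=
    fun l => ssq_loc _
  choose S hS using h1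
  refine ⟨Finset.univ.biUnion S, ?_⟩
  intro Q' _ π' h
  rw [← nu_eq]
  refine lt_of_le_of_lt ?_ hk
  refine Finset.sum_le_sum fun l _ => ?_
  rw [beta_eq ((gset B).image π) (fun q g l => rw' (push π B) q (g, l))
    (rw' (push π B)) (fun _ _ _ => rfl) (fun q p hp => supp_push π B q p hp), ← ht, norm_eq,
    hS l π π' (fun s hs => h s (Finset.mem_biUnion.2 ⟨l, Finset.mem_univ _, hs⟩)), ← norm_eq]
  exact QQ_ge _ _ _ _

end Pool.Agent.H13.GN
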